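import Pool.Agent.H19.KN.Targets

/-!
# Row FPO: order and residue of polynomials at the place of an irreducible polynomial
-/

namespace Pool.Agent.H42.KN

open Pool.Agent.H62.MK Pool.Agent.H19.KN Polynomial Function IsDedekindDomain

universe u

/-- the value of `pu f` -/
theorem pu_val (K : Type u) [Field K] (f : K[X]) (hf : f ≠ 0) :
    ((pu f : (RatFunc K)ˣ) : RatFunc K) = algebraMap K[X] (RatFunc K) f := by
  have h : ¬ algebraMap K[X] (RatFunc K) f = 0 := RatFunc.algebraMap_ne_zero hf
  unfold pu
  rw [dif_neg h, Units.val_mk0]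

/-- (FPO) order and residue of polynomials. -/
theorem pf_FPO : T_FPO.{u} := by
  intro K _ v f hf
  refine ⟨pu_val K f hf, ?_, ?_⟩
  · intro hv
    have hmem : f ∉ (polyPrime v.1 (Fact.out : Irreducible v.1)).asIdeal := by
      intro h
      exact hv (Ideal.mem_span_singleton.mp h)
    have h0 : (finPlace v.1).ord (pu f) = 0 := by
      show -WithZero.log ((polyPrime v.1 (Fact.out : Irreducible v.1)).valuation (RatFunc K)
        ((pu f : (RatFunc K)ˣ) : RatFunc K)) = 0
      rw [pu_val K f hf, HeightOneSpectrum.valuation_of_algebraMap,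
        (HeightOneSpectrum.intValuation_eq_one_iff_mem_primeCompl _ f).2 hmem, WithZero.log_one,
        neg_zero]
    refine ⟨h0, ?_⟩
    rw [DV.ures_of_ord_eq_zero _ _ h0]
    unfold DV.resUnit
    rw [Units.val_mk0]
    have hm := placeDV_mem (K := RatFunc K) (polyPrime v.1 (Fact.out : Irreducible v.1))
      (AdjoinRoot.mk v.1) AdjoinRoot.mk_surjective (by
        ext r
        rw [RingHom.mem_ker, AdjoinRoot.mk_eq_zero]
        exact Ideal.mem_span_singleton.symm) f
    have hres := placeDV_res (K := RatFunc K) (polyPrime v.1 (Fact.out : Irreducible v.1))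
      (AdjoinRoot.mk v.1) AdjoinRoot.mk_surjective (by
        ext r
        rw [RingHom.mem_ker, AdjoinRoot.mk_eq_zero]
        exact Ideal.mem_span_singleton.symm) f hm
    rw [← hres]
    unfold finPlace
    congr 1
    apply Subtype.ext
    exact pu_val K f hf
  · show -WithZero.log ((polyPrime v.1 (Fact.out : Irreducible v.1)).valuation (RatFunc K)
      ((pu v.1 : (RatFunc K)ˣ) : RatFunc K)) = 1
    have hv0 : v.1 ≠ 0 := v.2.2.ne_zero
    rw [pu_val K v.1 hv0, HeightOneSpectrum.valuation_of_algebraMap,
      HeightOneSpectrum.intValuation_singleton _ hv0 rfl, WithZero.log_exp]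
    norm_num

end Pool.Agent.H42.KN
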