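import Pool.Agent.H19.KN.Targets

/-!
# Row INF: a symbol with an entry `f / (leading monomial of f)` has trivial residue at infinity
-/

namespace Pool.Agent.H42.KN

open Pool.Agent.H62.MK Pool.Agent.H19.KN Polynomial Function IsDedekindDomain

universe u

/-- the value of `pu f` -/
theorem inf_pu (K : Type u) [Field K] (f : K[X]) (hf : f ≠ 0) :
    ((pu f : (RatFunc K)ˣ) : RatFunc K) = algebraMap K[X] (RatFunc K) f := by
  have h : ¬ algebraMap K[X] (RatFunc K) f = 0 := RatFunc.algebraMap_ne_zero hf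
  unfold pu
  rw [dif_neg h, Units.val_mk0]

/-- polynomials with value `1` at `0` -/
theorem inf_zero (K : Type u) [Field K] (w : (RatFunc K)ˣ) (g : K[X])
    (hw : (w : RatFunc K) = algebraMap K[X] (RatFunc K) g) (hg : eval 0 g = 1) :
    (zeroPlace K).ord w = 0 ∧ (zeroPlace K).ures w = 1 := by
  have hmem : g ∉ (polyPrime (X : K[X]) irreducible_X).asIdeal := by
    intro h
    have h1 : (X : K[X]) ∣ g := Ideal.mem_span_singleton.mp h
    rw [X_dvd_iff, coeff_zero_eq_eval_zero, hg] at h1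
    exact one_ne_zero h1
  have h0 : (zeroPlace K).ord w = 0 := by
    show -WithZero.log ((polyPrime (X : K[X]) irreducible_X).valuation (RatFunc K)
      (w : RatFunc K)) = 0
    rw [hw, HeightOneSpectrum.valuation_of_algebraMap,
      (HeightOneSpectrum.intValuation_eq_one_iff_mem_primeCompl _ g).2 hmem, WithZero.log_one,
      neg_zero]
  refine ⟨h0, ?_⟩
  rw [DV.ures_of_ord_eq_zero _ _ h0]
  apply Units.ext
  unfold DV.resUnit
  rw [Units.val_mk0, Units.val_one]
  have hker : RingHom.ker (Polynomial.evalRingHom (0 : K)) =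
      (polyPrime (X : K[X]) irreducible_X).asIdeal := by
    ext r
    rw [RingHom.mem_ker]
    show eval 0 r = 0 ↔ r ∈ Ideal.span {X}
    rw [Ideal.mem_span_singleton, X_dvd_iff, coeff_zero_eq_eval_zero]
  have hm := placeDV_mem (K := RatFunc K) (polyPrime (X : K[X]) irreducible_X)
    (Polynomial.evalRingHom (0 : K)) (fun c => ⟨C c, by simp⟩) hker g
  have hres := placeDV_res (K := RatFunc K) (polyPrime (X : K[X]) irreducible_X)
    (Polynomial.evalRingHom (0 : K)) (fun c => ⟨C c, by simp⟩) hker g hm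
  have h1 : Polynomial.evalRingHom (0 : K) g = 1 := hg
  rw [h1] at hres
  rw [← hres]
  unfold zeroPlace
  congr 1
  apply Subtype.ext
  exact hw

theorem inf_subst (K : Type u) [Field K] (p : K[X]) :
    invSubst K (algebraMap K[X] (RatFunc K) p) =
      Polynomial.aeval (R := K) (RatFunc.X⁻¹ : RatFunc K) p := by
  unfold invSubst
  rw [IsFractionRing.lift_algebraMap]
  rfl

theorem inf_rev (K : Type u) [Field K] (f : K[X]) :
    Polynomial.aeval (R := K) (RatFunc.X⁻¹ : RatFunc K) f =
      algebraMap K[X] (RatFunc K) f.reverse * (RatFunc.X⁻¹ : RatFunc K) ^ f.natDegree := by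
  have hX : (RatFunc.X : RatFunc K) ≠ 0 := RatFunc.X_ne_zero
  letI : Invertible (RatFunc.X⁻¹ : RatFunc K) := invertibleOfNonzero (inv_ne_zero hX)
  have h := Polynomial.eval₂_reverse_mul_pow (algebraMap K (RatFunc K))
    (RatFunc.X⁻¹ : RatFunc K) f
  have h1 : ⅟(RatFunc.X⁻¹ : RatFunc K) = RatFunc.X := by
    rw [invOf_eq_inv, inv_inv]
  rw [h1] at h
  rw [Polynomial.aeval_def, ← h]
  congr 1
  have h2 : Polynomial.eval₂ (algebraMap K (RatFunc K)) (RatFunc.X : RatFunc K) f.reverse =
      Polynomial.aeval (R := K) (RatFunc.X : RatFunc K) f.reverse := rfl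
  rw [h2, ← RatFunc.algebraMap_X, Polynomial.aeval_algebraMap_apply, Polynomial.aeval_X_left_apply]

theorem pf_INF (h1 : T_SLOT.{u}) (h2 : T_TCU.{u}) : T_INF.{u} := by
  intro K _ m a i f hf hi
  have hX : (RatFunc.X : RatFunc K) ≠ 0 := RatFunc.X_ne_zero
  have hlc : f.leadingCoeff ≠ 0 := leadingCoeff_ne_zero.mpr hf
  have hlm : lm f ≠ 0 := mul_ne_zero (by rwa [Ne, C_eq_zero]) (pow_ne_zero _ X_ne_zero)
  set b : Fin (m + 1) → (RatFunc K)ˣ := fun j => Units.map (invSubst K).toMonoidHom (a j) with hb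
  have hval : ((b i : (RatFunc K)ˣ) : RatFunc K) =
      algebraMap K[X] (RatFunc K) (C (f.leadingCoeff)⁻¹ * f.reverse) := by
    have e1 : ((b i : (RatFunc K)ˣ) : RatFunc K) = invSubst K ((a i : (RatFunc K)ˣ) : RatFunc K) :=
      rfl
    rw [e1, hi, Units.val_div_eq_div_val, inf_pu K f hf, inf_pu K (lm f) hlm, map_div₀, inf_subst,
      inf_subst, inf_rev]
    have e2 : Polynomial.aeval (R := K) (RatFunc.X⁻¹ : RatFunc K) (lm f) =
        algebraMap K (RatFunc K) f.leadingCoeff * (RatFunc.X⁻¹ : RatFunc K) ^ f.natDegree := by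
      unfold lm
      rw [map_mul, map_pow, Polynomial.aeval_X, Polynomial.aeval_C]
    have e3 : algebraMap K[X] (RatFunc K) (C (f.leadingCoeff)⁻¹ * f.reverse) =
        (algebraMap K (RatFunc K) f.leadingCoeff)⁻¹ * algebraMap K[X] (RatFunc K) f.reverse := by
      rw [map_mul, ← map_inv₀]
      rfl
    have hl : algebraMap K (RatFunc K) f.leadingCoeff ≠ 0 := by
      intro h
      exact hlc ((algebraMap K (RatFunc K)).injective (by rw [h, map_zero]))
    have hp : (RatFunc.X⁻¹ : RatFunc K) ^ f.natDegree ≠ 0 := pow_ne_zero _ (inv_ne_zero hX)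
    rw [e2, e3]
    field_simp
  have hev : eval 0 (C (f.leadingCoeff)⁻¹ * f.reverse) = 1 := by
    rw [eval_mul, eval_C, ← coeff_zero_eq_eval_zero, coeff_zero_reverse]
    exact inv_mul_cancel₀ hlc
  obtain ⟨hord, hures⟩ := inf_zero K (b i) _ hval hev
  have hmain : ∀ x : MilnorK (RatFunc K) m, tame (zeroPlace K) m (cup (b i) x) = 0 := by
    obtain ⟨t1, t2⟩ := h2 (RatFunc K) K (zeroPlace K) (b i) hord
    cases m with
    | zero => exact t1
    | succ m =>
      intro x
      rw [t2 m x, hures, cup_one, neg_zero]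
  have hinf : tameInf K m (sym a) = tame (zeroPlace K) m (sym b) := by
    unfold tameInf
    rw [AddMonoidHom.comp_apply, map_sym]
  rw [hinf]
  rcases h1 (RatFunc K) m b i with h | h
  · rw [h]; exact hmain _
  · rw [h, map_neg, hmain, neg_zero]

end Pool.Agent.H42.KN
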